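import Pool.Agent.helper1.FI.SpecQ2

set_option autoImplicit false

namespace Pool.Agent.FI

open Pool.Agent.helper58.DC Pool.Agent.DI Pool.Agent.GR Pool.Agent.OB

theorem QUN_unit {p : ℕ} {M : Ideal (integralClosure ℤ ℂ)} (hS : Setup p M) {a b : ℕ} (ha : ¬ p ∣ a) (hb : ¬ p ∣ b) :
    IntAt M ((a : ℂ) / b) ∧ ¬ InM M ((a : ℂ) / b) := by
  have hb0 : (b : ℂ) ≠ 0 := by
    have h : b ≠ 0 := by
      rintro rfl
      exact hb (dvd_zero p)
    exact_mod_cast h
  constructor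
  · rw [div_eq_mul_inv]
    exact IntAt.mul hS (IntAt.natCast hS a) (IntAt.inv hS (IntAt.natCast hS b) fun h => hb ((InM.natCast hS b).1 h))
  · intro h
    have h1 := InM.mul_right hS h (IntAt.natCast hS b)
    rw [div_mul_cancel₀ _ hb0] at h1
    exact ha ((InM.natCast hS a).1 h1)

theorem QUN_small {p : ℕ} {M : Ideal (integralClosure ℤ ℂ)} (hS : Setup p M) {a b v w : ℕ} (ha : ¬ p ∣ a) (hb : ¬ p ∣ b)
    (hvw : w < v) : InM M (((p ^ v * a : ℕ) : ℂ) / ((p ^ w * b : ℕ) : ℂ)) := by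
  have hp0 : (p : ℂ) ≠ 0 := hS.p_ne
  have hb0 : (b : ℂ) ≠ 0 := by
    have h : b ≠ 0 := by
      rintro rfl
      exact hb (dvd_zero p)
    exact_mod_cast h
  obtain ⟨k, rfl⟩ := Nat.exists_eq_add_of_lt hvw
  have e : (((p ^ (w + k + 1) * a : ℕ) : ℂ) / ((p ^ w * b : ℕ) : ℂ)) = (p : ℂ) ^ (k + 1) * ((a : ℂ) / b) := by
    push_cast
    rw [pow_add, pow_add, pow_add]
    field_simp
  rw [e]
  exact InM.mul_right hS (InM.pow hS (InM.prime_mem hS) (Nat.succ_ne_zero k)) (QUN_unit hS ha hb).1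

theorem QUN : QUN_stmt := by
  intro p M hS a b ha hb
  have hpf : Fact p.Prime := ⟨hS.pr⟩
  obtain ⟨v, a', ha', rfl⟩ := Nat.exists_eq_pow_mul_and_not_dvd ha p hS.pr.ne_one
  obtain ⟨w, b', hb', rfl⟩ := Nat.exists_eq_pow_mul_and_not_dvd hb p hS.pr.ne_one
  have hp0 : (p : ℂ) ≠ 0 := hS.p_ne
  have ha0 : a' ≠ 0 := by
    rintro rfl
    exact ha' (dvd_zero p)
  have hb0 : b' ≠ 0 := by
    rintro rfl
    exact hb' (dvd_zero p)
  have ea : padicValNat p (p ^ v * a') = v := by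
    rw [padicValNat.mul (pow_ne_zero _ hS.pr.ne_zero) ha0, padicValNat.prime_pow,
      padicValNat.eq_zero_of_not_dvd ha', add_zero]
  have eb : padicValNat p (p ^ w * b') = w := by
    rw [padicValNat.mul (pow_ne_zero _ hS.pr.ne_zero) hb0, padicValNat.prime_pow,
      padicValNat.eq_zero_of_not_dvd hb', add_zero]
  rw [ea, eb]
  rcases lt_trichotomy v w with h | h | h
  · have h1 := QUN_small hS hb' ha' h
    constructor
    · rintro ⟨h2, -⟩
      exfalso
      have h3 := InM.mul_right hS h1 h2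
      have e : ((p ^ w * b' : ℕ) : ℂ) / ((p ^ v * a' : ℕ) : ℂ) * (((p ^ v * a' : ℕ) : ℂ) / ((p ^ w * b' : ℕ) : ℂ)) = 1 := by
        have h4 : ((p ^ w * b' : ℕ) : ℂ) ≠ 0 := by exact_mod_cast hb
        have h5 : ((p ^ v * a' : ℕ) : ℂ) ≠ 0 := by exact_mod_cast ha
        rw [div_mul_div_cancel₀ h5, div_self h4]
      rw [e] at h3
      exact InM.not_one hS h3
    · intro h2
      omega
  · subst h
    constructor
    · intro _
      rfl
    · intro _
      have e : (((p ^ v * a' : ℕ) : ℂ) / ((p ^ v * b' : ℕ) : ℂ)) = (a' : ℂ) / b' := by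
        push_cast
        rw [mul_div_mul_left _ _ (pow_ne_zero v hp0)]
      rw [e]
      exact QUN_unit hS ha' hb'
  · have h1 := QUN_small hS ha' hb' h
    constructor
    · rintro ⟨-, h2⟩
      exact absurd h1 h2
    · intro h2
      omega

end Pool.Agent.FI
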